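import Mathlib

-- part MP_c355a0_ag.Corank
section

/-!
Existence of a point of large corank for an `(n+1) × n` matrix of forms of positive degree
in `n > q (q+1)` variables, over an extension field.
-/

set_option autoImplicit false

open MvPolynomial

namespace Pool.Agent.MP_c355a0_ag

theorem aeval_mul_of_isHomogeneous {σ k R : Type*} [CommRing k] [CommRing R] [Algebra k R]
    {g : MvPolynomial σ k} {e : ℕ} (hg : g.IsHomogeneous e) (c : R) (x : σ → R) :
    aeval (fun i => c * x i) g = c ^ e * aeval x g := by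
  rw [aeval_def, aeval_def, eval₂_eq, eval₂_eq, Finset.mul_sum]
  refine Finset.sum_congr rfl fun s hs => ?_
  rw [hg.degree_eq_sum_deg_support hs]
  simp only [mul_pow, Finset.prod_mul_distrib, Finset.prod_pow_eq_pow_sum]
  ring

theorem exists_normalizer {F ι : Type*} [Field F] [Fintype ι] (V : ValuationSubring F)
    (c : ι → F) (hc : c ≠ 0) :
    ∃ i₀, c i₀ ≠ 0 ∧ ∀ i, c i / c i₀ ∈ V := by
  obtain ⟨j, hj⟩ := Function.ne_iff.mp hc
  obtain ⟨i₀, -, hi₀⟩ := Finset.exists_max_image Finset.univ (fun i => V.valuation (c i))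
    ⟨j, Finset.mem_univ _⟩
  have h0 : c i₀ ≠ 0 := by
    intro h
    have := hi₀ j (Finset.mem_univ _)
    simp only [h, map_zero, le_zero_iff, map_eq_zero] at this
    exact hj this
  refine ⟨i₀, h0, fun i => ?_⟩
  rw [← V.valuation_le_one_iff, map_div₀]
  exact div_le_one_of_le₀ (hi₀ i (Finset.mem_univ _)) zero_le

theorem rank_residue_le {F : Type*} [Field F] (V : ValuationSubring F) {m n r : ℕ}
    (X : Matrix (Fin m) (Fin n) V) (A : Matrix (Fin m) (Fin r) F) (B : Matrix (Fin r) (Fin n) F)
    (h : X.map (fun a => (a : F)) = A * B) :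
    (X.map (IsLocalRing.residue V)).rank ≤ r := by
  by_contra hlt
  push Not at hlt
  obtain ⟨v, hv⟩ := exists_linearIndependent_of_le_finrank (R := IsLocalRing.ResidueField V)
    (M := LinearMap.range (X.map (IsLocalRing.residue V)).mulVecLin) (n := r + 1) hlt
  have hv' := hv.map' (LinearMap.range (X.map (IsLocalRing.residue V)).mulVecLin).subtype
    (Submodule.ker_subtype _)
  choose yb hyb using fun i => (v i).2
  have hl : ∀ i j, ∃ y : V, IsLocalRing.residue V y = yb i j := fun i j =>
    IsLocalRing.residue_surjective _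
  choose y hy using hl
  have hdep : ¬ LinearIndependent F (fun i : Fin (r + 1) => B.mulVec (fun j => (y i j : F))) := by
    intro hli
    have := hli.fintype_card_le_finrank
    simp at this
  rw [Fintype.not_linearIndependent_iff] at hdep
  obtain ⟨c, hc, i₁, hi₁⟩ := hdep
  obtain ⟨i₀, h0, hV⟩ := exists_normalizer V c (Function.ne_iff.mpr ⟨i₁, hi₁⟩)
  let c' : Fin (r + 1) → V := fun i => ⟨c i / c i₀, hV i⟩
  have hsum : ∀ a, ∑ i, c' i * (X.mulVec (y i)) a = 0 := by
    intro a
    apply Subtype.val_injective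
    have h1 : ∀ i, ((X.mulVec (y i) a : V) : F) = (A.mulVec (B.mulVec fun j => (y i j : F))) a := by
      intro i
      rw [Matrix.mulVec_mulVec, ← h]
      simp [Matrix.mulVec, dotProduct]
    have h2 : A.mulVec (∑ i, c i • B.mulVec (fun j => (y i j : F))) a = 0 := by
      rw [hc]; simp
    rw [Matrix.mulVec_sum] at h2
    simp only [Matrix.mulVec_smul, Finset.sum_apply, Pi.smul_apply, smul_eq_mul] at h2
    have h3 : ((∑ i, c' i * (X.mulVec (y i)) a : V) : F)
        = (∑ i, c i * (A.mulVec (B.mulVec fun j => (y i j : F))) a) / c i₀ := by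
      rw [Finset.sum_div]
      push_cast
      refine Finset.sum_congr rfl fun i _ => ?_
      rw [h1]
      simp only [c']
      ring
    rw [h3, h2]; simp
  rw [Fintype.linearIndependent_iff] at hv'
  have := hv' (fun i => IsLocalRing.residue V (c' i)) (by
    funext a
    have h4 := congrArg (IsLocalRing.residue V) (hsum a)
    simp only [map_sum, map_mul, map_zero] at h4
    simp only [Finset.sum_apply, Pi.smul_apply, smul_eq_mul, Function.comp, Submodule.subtype_apply,
      Pi.zero_apply]
    rw [← h4]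
    refine Finset.sum_congr rfl fun i _ => ?_
    congr 1
    rw [← hyb i]
    simp [Matrix.mulVec, dotProduct, hy]) i₀
  have h5 : c' i₀ = 1 := Subtype.ext (by simp [c', h0])
  simp [h5] at this

/-- Index type of the generic variables. -/
abbrev Vars (r q : ℕ) : Type := (Fin (r + q + 1) × Fin r) ⊕ (Fin r × Fin q) ⊕ Fin (r + q)

/-- The generic field. -/
abbrev GF (r q : ℕ) : Type := FractionRing (MvPolynomial (Vars r q) ℂ)

/-- The generic variables inside the generic field. -/
noncomputable def gv (r q : ℕ) (s : Vars r q) : GF r q :=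
  algebraMap (MvPolynomial (Vars r q) ℂ) (GF r q) (X s)

/-- Left factor of the generic rank `r` matrix. -/
noncomputable def gA (r q : ℕ) : Matrix (Fin (r + q + 1)) (Fin r) (GF r q) :=
  fun i a => gv r q (Sum.inl (i, a))

/-- Right factor of the generic rank `r` matrix. -/
noncomputable def gB (r q : ℕ) : Matrix (Fin r) (Fin (r + q)) (GF r q) :=
  fun a j => Fin.addCases (motive := fun _ => GF r q) (fun b => if a = b then 1 else 0)
    (fun c => gv r q (Sum.inr (Sum.inl (a, c)))) j

/-- The generic point. -/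
noncomputable def gp (r q : ℕ) : Fin (r + q) → GF r q := fun l => gv r q (Sum.inr (Sum.inr l))

theorem det_gP_ne_zero (r q : ℕ) :
    (Matrix.of fun (a b : Fin r) => gA r q (Fin.castLE (by omega) a) b).det ≠ 0 := by
  classical
  let P0 : Matrix (Fin r) (Fin r) (MvPolynomial (Vars r q) ℂ) :=
    Matrix.of fun a b => X (Sum.inl (Fin.castLE (by omega) a, b))
  have h1 : (Matrix.of fun (a b : Fin r) => gA r q (Fin.castLE (by omega) a) b)
      = (algebraMap (MvPolynomial (Vars r q) ℂ) (GF r q)).mapMatrix P0 := by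
    ext a b; rfl
  rw [h1, ← RingHom.map_det]
  intro h
  have h2 : P0.det = 0 := (IsFractionRing.injective _ (GF r q)) (by simpa using h)
  let ev : MvPolynomial (Vars r q) ℂ →+* ℂ := eval fun s => match s with
    | Sum.inl (i, b) => if (i : ℕ) = (b : ℕ) then 1 else 0
    | Sum.inr _ => 0
  have h3 : ev.mapMatrix P0 = 1 := by
    ext a b
    simp [P0, ev, Matrix.one_apply, Fin.ext_iff]
  have h4 := RingHom.map_det ev P0
  rw [h3, h2] at h4
  simp at h4

theorem not_all_integral (r q : ℕ) (hn : q * (q + 1) < r + q)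
    (J : Fin (r + q + 1) → Fin (r + q) → MvPolynomial (Fin (r + q)) ℂ) :
    ¬ ∀ l, IsIntegral (Algebra.adjoin ℂ (Set.range fun ij : Fin (r + q + 1) × Fin (r + q) =>
      (gA r q * gB r q) ij.1 ij.2 - aeval (gp r q) (J ij.1 ij.2))) (gp r q l) := by
  classical
  intro hall
  set S : Set (GF r q) := Set.range fun ij : Fin (r + q + 1) × Fin (r + q) =>
      (gA r q * gB r q) ij.1 ij.2 - aeval (gp r q) (J ij.1 ij.2) with hS
  let E : Subalgebra ℂ (GF r q) :=
    (Subalgebra.algebraicClosure (Algebra.adjoin ℂ S) (GF r q)).restrictScalars ℂ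
  have hE : ∀ x, x ∈ E ↔ IsAlgebraic (Algebra.adjoin ℂ S) x := fun x => Iff.rfl
  have hp : ∀ l, gp r q l ∈ E := fun l => (hall l).isAlgebraic
  have hJ : ∀ g : MvPolynomial (Fin (r + q)) ℂ, aeval (gp r q) g ∈ E := by
    intro g
    have : Algebra.adjoin ℂ (Set.range (gp r q)) ≤ E :=
      Algebra.adjoin_le (by rintro _ ⟨l, rfl⟩; exact hp l)
    apply this
    rw [Algebra.adjoin_range_eq_range_aeval]
    exact ⟨g, rfl⟩
  have hAB : ∀ i j, (gA r q * gB r q) i j ∈ E := by
    intro i j
    have h1 : (gA r q * gB r q) i j - aeval (gp r q) (J i j) ∈ E := by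
      rw [hE]
      exact isAlgebraic_algebraMap (R := Algebra.adjoin ℂ S)
        ⟨_, Algebra.subset_adjoin ⟨(i, j), rfl⟩⟩
    simpa using E.add_mem h1 (hJ (J i j))
  have hA : ∀ i a, gA r q i a ∈ E := by
    intro i a
    have := hAB i (Fin.castAdd q a)
    simpa [Matrix.mul_apply, gB] using this
  have hQ : ∀ a c, gv r q (Sum.inr (Sum.inl (a, c))) ∈ E := by
    intro a c
    set P : Matrix (Fin r) (Fin r) (GF r q) :=
      Matrix.of fun (a b : Fin r) => gA r q (Fin.castLE (by omega) a) b with hP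
    let Q : Matrix (Fin r) (Fin q) (GF r q) := fun a c => gv r q (Sum.inr (Sum.inl (a, c)))
    let PE : Matrix (Fin r) (Fin r) E := fun a b => ⟨P a b, hA _ _⟩
    have hPE : P = E.val.toRingHom.mapMatrix PE := by ext a b; rfl
    have hdet : P.det ∈ E := by
      rw [hPE, ← RingHom.map_det]; exact (PE.det).2
    have hadj : ∀ a b, P.adjugate a b ∈ E := by
      intro a b
      rw [hPE, ← RingHom.map_adjugate]; exact (PE.adjugate a b).2
    have hPQ : ∀ a c, (P * Q) a c ∈ E := by
      intro a c
      have := hAB (Fin.castLE (by omega) a) (Fin.natAdd r c)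
      rw [Matrix.mul_apply] at this ⊢
      simpa [gB, hP, Q] using this
    have h1 : P.det * Q a c = (P.adjugate * (P * Q)) a c := by
      rw [← Matrix.mul_assoc, Matrix.adjugate_mul]
      simp
    have h2 : P.det * Q a c ∈ E := by
      rw [h1, Matrix.mul_apply]
      exact E.sum_mem fun b _ => E.mul_mem (hadj _ _) (hPQ _ _)
    exact IsAlgebraic.of_mul (mem_nonZeroDivisors_of_ne_zero (det_gP_ne_zero r q)) hdet h2
  have hv : ∀ s, gv r q s ∈ E := by
    rintro (⟨i, a⟩ | ⟨a, c⟩ | l)
    · exact hA i a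
    · exact hQ a c
    · exact hp l
  have hT : ∀ g : MvPolynomial (Vars r q) ℂ, algebraMap _ (GF r q) g ∈ E := by
    intro g
    induction g using MvPolynomial.induction_on with
    | C a => exact E.algebraMap_mem a
    | add p p' hp hp' => rw [map_add]; exact E.add_mem hp hp'
    | mul_X p s hp => rw [map_mul]; exact E.mul_mem hp (hv s)
  have halg : Algebra.IsAlgebraic (Algebra.adjoin ℂ S) (GF r q) := by
    refine ⟨fun x => ?_⟩
    obtain ⟨a, b, hb, rfl⟩ := IsFractionRing.div_surjective (A := MvPolynomial (Vars r q) ℂ) x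
    rw [div_eq_mul_inv]
    exact IsAlgebraic.mul (hT a) (IsAlgebraic.inv (hT b))
  have h1 := Algebra.IsAlgebraic.trdeg_le_cardinalMk ℂ S
  have h2 := trdeg_le_of_injective (R := ℂ)
    (IsScalarTower.toAlgHom ℂ (MvPolynomial (Vars r q) ℂ) (GF r q)) (IsFractionRing.injective _ _)
  rw [MvPolynomial.trdeg_of_isDomain] at h2
  have h3 : Cardinal.mk S ≤ Cardinal.mk (Fin (r + q + 1) × Fin (r + q)) := Cardinal.mk_range_le
  have h4 := h2.trans (h1.trans h3)
  simp only [Cardinal.mk_fintype, Cardinal.lift_natCast, Nat.cast_le, Fintype.card_sum,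
    Fintype.card_prod, Fintype.card_fin] at h4
  nlinarith

theorem exists_corank (n q e : ℕ) (hn : q * (q + 1) < n) (he : 1 ≤ e)
    (J : Fin (n + 1) → Fin n → MvPolynomial (Fin n) ℂ) (hJ : ∀ i j, (J i j).IsHomogeneous e) :
    ∃ (K : Type) (_ : Field K) (_ : Algebra ℂ K) (p : Fin n → K), p ≠ 0 ∧
      (Matrix.of fun i j => aeval p (J i j)).rank + q ≤ n := by
  classical
  have hq : q ≤ q * (q + 1) := by nlinarith
  obtain ⟨r, rfl⟩ : ∃ r, n = r + q := ⟨n - q, by omega⟩
  have h := not_all_integral r q hn J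
  push Not at h
  obtain ⟨l, hl⟩ := h
  set S : Set (GF r q) := Set.range fun ij : Fin (r + q + 1) × Fin (r + q) =>
      (gA r q * gB r q) ij.1 ij.2 - aeval (gp r q) (J ij.1 ij.2) with hS
  obtain ⟨V, hV, hlV⟩ := Subring.exists_le_valuationSubring_of_isIntegrallyClosedIn
    (R := (integralClosure (Algebra.adjoin ℂ S) (GF r q)).toSubring) (x := gp r q l) hl
  have hRV : ∀ x ∈ Algebra.adjoin ℂ S, x ∈ V := fun x hx =>
    hV ((integralClosure (Algebra.adjoin ℂ S) (GF r q)).algebraMap_mem ⟨x, hx⟩)
  have hne : gp r q ≠ 0 := by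
    intro h0
    apply hlV
    rw [h0]; exact V.zero_mem
  obtain ⟨l₀, h0, hn0⟩ := exists_normalizer V (gp r q) hne
  have hl0 : gp r q l₀ ∉ V := by
    intro hm
    apply hlV
    have := V.mul_mem _ _ (hn0 l) hm
    rwa [div_mul_cancel₀ _ h0] at this
  have hinv : (gp r q l₀)⁻¹ ∈ V := (V.mem_or_inv_mem _).resolve_left hl0
  let t : V := ⟨(gp r q l₀)⁻¹, hinv⟩
  have ht : IsLocalRing.residue V t = 0 := by
    rw [IsLocalRing.residue_eq_zero_iff, V.valuation_lt_one_iff]
    have h1 : ¬ V.valuation (gp r q l₀) ≤ 1 := by rwa [V.valuation_le_one_iff]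
    push Not at h1
    simp only [t, map_inv₀]
    exact inv_lt_one_of_one_lt₀ h1
  let φ : ℂ →+* V := (algebraMap ℂ (GF r q)).codRestrict V.toSubring
    (fun c => hRV _ (Subalgebra.algebraMap_mem _ c))
  let _ : Algebra ℂ V := φ.toAlgebra
  let _ : Algebra ℂ (IsLocalRing.ResidueField V) := ((IsLocalRing.residue V).comp φ).toAlgebra
  let p' : Fin (r + q) → V := fun j => ⟨gp r q j / gp r q l₀, hn0 j⟩
  let Y : Fin (r + q + 1) → Fin (r + q) → V := fun i j =>
    ⟨(gA r q * gB r q) i j - aeval (gp r q) (J i j),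
      hRV _ (Algebra.subset_adjoin ⟨(i, j), rfl⟩)⟩
  let incl : V →ₐ[ℂ] GF r q := { V.subtype with commutes' := fun c => rfl }
  let res : V →ₐ[ℂ] IsLocalRing.ResidueField V :=
    { IsLocalRing.residue V with commutes' := fun c => rfl }
  let XX : Matrix (Fin (r + q + 1)) (Fin (r + q)) V :=
    Matrix.of fun i j => aeval p' (J i j) + t ^ e * Y i j
  have hX : XX.map (fun a => (a : GF r q)) = (((gp r q l₀)⁻¹) ^ e • gA r q) * gB r q := by
    ext i j
    have h1 : ((aeval p' (J i j) : V) : GF r q) = aeval (fun j => (p' j : GF r q)) (J i j) := by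
      have := comp_aeval_apply (f := p') incl (J i j)
      exact this
    have h2 : (fun j => (p' j : GF r q)) = fun j => (gp r q l₀)⁻¹ * gp r q j := by
      funext j; simp [p', div_eq_inv_mul]
    rw [h2, aeval_mul_of_isHomogeneous (hJ i j)] at h1
    rw [Matrix.smul_mul]
    simp only [Matrix.map_apply, XX, Matrix.of_apply, Matrix.smul_apply, smul_eq_mul]
    push_cast
    rw [h1]
    simp only [t, Y]
    ring
  have hr := rank_residue_le V XX _ _ hX
  refine ⟨IsLocalRing.ResidueField V, inferInstance, inferInstance,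
    fun j => IsLocalRing.residue V (p' j), ?_, ?_⟩
  · intro h
    have := congrFun h l₀
    have h5 : p' l₀ = 1 := Subtype.ext (by simp [p', h0])
    simp [h5] at this
  · have : (Matrix.of fun i j => aeval (fun j => IsLocalRing.residue V (p' j)) (J i j))
        = XX.map (IsLocalRing.residue V) := by
      ext i j
      have h1 := comp_aeval_apply (f := p') res (J i j)
      simp only [Matrix.of_apply, Matrix.map_apply, XX, map_add, map_mul, map_pow, ht,
        zero_pow (by omega : e ≠ 0), zero_mul, add_zero]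
      exact h1.symm
    rw [this]
    omega

end Pool.Agent.MP_c355a0_ag

end

-- part MP_c355a0_ag.Jets
section

/-!
Third order jets at a point of large corank.
-/

set_option autoImplicit false

open MvPolynomial Matrix

namespace Pool.Agent.MP_c355a0_ag

theorem taylor_one {σ k R : Type*} [Fintype σ] [CommRing k] [CommRing R] [Algebra k R]
    (I : Ideal R) (x w : σ → R) (hw : ∀ j, w j ∈ I) (g : MvPolynomial σ k) :
    aeval (x + w) g - aeval x g - ∑ j, aeval x (pderiv j g) * w j ∈ I ^ 2 := by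
  classical
  induction g using MvPolynomial.induction_on with
  | C a => simp
  | add p p' hp hp' =>
    have := (I ^ 2).add_mem hp hp'
    convert this using 1
    simp only [map_add, add_mul, Finset.sum_add_distrib]
    ring
  | mul_X p s hp =>
    have h1 : (∑ j, aeval x (pderiv j p) * w j) * w s ∈ I ^ 2 := by
      rw [pow_two]
      exact Ideal.mul_mem_mul (I.sum_mem fun j _ => I.mul_mem_left _ (hw j)) (hw s)
    have := (I ^ 2).add_mem ((I ^ 2).mul_mem_right (x s + w s) hp) h1
    convert this using 1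
    have h2 : ∑ j, aeval x (pderiv j (p * X s)) * w j
        = (∑ j, aeval x (pderiv j p) * w j) * x s + aeval x p * w s := by
      simp only [Derivation.leibniz, pderiv_X, smul_eq_mul, map_add, map_mul, aeval_X, add_mul,
        Finset.sum_add_distrib, Finset.sum_mul]
      rw [add_comm]
      congr 1
      · refine Finset.sum_congr rfl fun j _ => by ring
      · rw [Finset.sum_eq_single s]
        · simp
        · intro b _ hb
          simp [hb.symm]
        · simp
    rw [h2]
    simp only [map_mul, aeval_X, Pi.add_apply]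
    ring

theorem taylor_zero {σ k R : Type*} [Fintype σ] [CommRing k] [CommRing R] [Algebra k R]
    (I : Ideal R) (x w : σ → R) (hw : ∀ j, w j ∈ I) (g : MvPolynomial σ k) :
    aeval (x + w) g - aeval x g ∈ I := by
  have h1 := Ideal.pow_le_self (I := I) (n := 2) (by norm_num) (taylor_one I x w hw g)
  have h2 : ∑ j, aeval x (pderiv j g) * w j ∈ I := I.sum_mem fun j _ => I.mul_mem_left _ (hw j)
  simpa using I.add_mem h1 h2

theorem mulVec_mem {a b R : Type*} [Fintype b] [CommRing R] (I : Ideal R) (M : Matrix a b R)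
    (y : b → R) (hy : ∀ j, y j ∈ I) (i : a) : (M *ᵥ y) i ∈ I :=
  I.sum_mem fun j _ => I.mul_mem_left _ (hy j)

theorem newton {σ τ k R : Type*} [Fintype σ] [Fintype τ] [CommRing k] [CommRing R] [Algebra k R]
    (I : Ideal R) (f : τ → MvPolynomial σ k) (p w : σ → R) (hw : ∀ j, w j ∈ I)
    (J : Matrix τ σ R) (hJ : ∀ i j, J i j = aeval p (pderiv j (f i))) (hJw : J *ᵥ w = 0)
    (S : Matrix σ τ R) (m : ℕ) :
    ∃ y : τ → R, (∀ i, y i ∈ I ^ 2) ∧ ∀ i,
      aeval (p + w - S *ᵥ y) (f i) - aeval p (f i) - (y i - (J *ᵥ (S *ᵥ y)) i) ∈ I ^ (m + 2) := by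
  induction m with
  | zero =>
    refine ⟨0, fun i => by simp, fun i => ?_⟩
    have h1 := taylor_one I p w hw (f i)
    have h2 : ∑ j, aeval p (pderiv j (f i)) * w j = 0 := by
      have := congrFun hJw i
      simpa [mulVec, dotProduct, hJ] using this
    simpa [h2] using h1
  | succ m ih =>
    obtain ⟨y, hy, hr⟩ := ih
    set x := p + w - S *ᵥ y with hx
    set r : τ → R := fun i => aeval x (f i) - aeval p (f i) - (y i - (J *ᵥ (S *ᵥ y)) i) with hrdef
    have hle : I ^ (m + 2) ≤ I ^ 2 := Ideal.pow_le_pow_right (by omega)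
    refine ⟨y + r, fun i => (I ^ 2).add_mem (hy i) (hle (hr i)), fun i => ?_⟩
    have hSr : ∀ j, (-(S *ᵥ r)) j ∈ I ^ (m + 2) := fun j =>
      (I ^ (m + 2)).neg_mem (mulVec_mem _ S r hr j)
    have h1 := taylor_one (I ^ (m + 2)) x (-(S *ᵥ r)) hSr (f i)
    rw [← pow_mul] at h1
    have h1' := Ideal.pow_le_pow_right (I := I) (show m + 1 + 2 ≤ (m + 2) * 2 by omega) h1
    have hxp : ∀ j, (w - S *ᵥ y) j ∈ I := fun j =>
      I.sub_mem (hw j) (Ideal.pow_le_self (n := 2) (by norm_num) (mulVec_mem _ S y hy j))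
    have h2 : ∑ j, (aeval x (pderiv j (f i)) - J i j) * (-(S *ᵥ r)) j ∈ I ^ (m + 1 + 2) := by
      refine Ideal.sum_mem _ fun j _ => ?_
      rw [show m + 1 + 2 = (m + 2) + 1 by omega, pow_succ']
      refine Ideal.mul_mem_mul ?_ (hSr j)
      have := taylor_zero I p (w - S *ᵥ y) hxp (pderiv j (f i))
      rw [hJ, hx, add_sub_assoc]
      exact this
    have := (I ^ (m + 1 + 2)).add_mem h1' h2
    convert this using 1
    have h3 : p + w - S *ᵥ (y + r) = x + -(S *ᵥ r) := by
      rw [mulVec_add, hx]; abel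
    rw [h3, mulVec_add, mulVec_add]
    have h4 : (J *ᵥ (S *ᵥ r)) i = ∑ j, J i j * (S *ᵥ r) j := rfl
    simp only [Pi.add_apply, h4, Pi.neg_apply, sub_mul, Finset.sum_sub_distrib, mul_neg,
      Finset.sum_neg_distrib]
    have h5 : r i = aeval x (f i) - aeval p (f i) - (y i - (J *ᵥ (S *ᵥ y)) i) := rfl
    rw [h5]
    ring

theorem linear_data {K : Type*} [Field K] {m n : ℕ} (J : Matrix (Fin m) (Fin n) K)
    (p : Fin n → K) (hp : J *ᵥ p ≠ 0) :
    ∃ (q c : ℕ) (Φ : Matrix (Fin n) (Option (Fin q)) K) (Ψ : Matrix (Option (Fin q)) (Fin n) K)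
      (S : Matrix (Fin n) (Fin m) K) (η : Fin m → K) (E : Matrix (Fin m) (Fin c) K)
      (Γ : Matrix (Fin c) (Fin m) K),
      J.rank + q = n ∧ J.rank + c = m ∧ (∀ j, Φ j none = p j) ∧
      (∀ a, J *ᵥ (fun j => Φ j (some a)) = 0) ∧ Ψ * Φ = 1 ∧ Ψ * S = 0 ∧
      1 - J * S = vecMulVec (J *ᵥ p) η + E * Γ := by
  classical
  set L := J.mulVecLin with hL
  obtain ⟨C', hC'⟩ := Submodule.exists_isCompl (LinearMap.range L)
  let q := Module.finrank K (LinearMap.ker L)
  let c := Module.finrank K C'
  let v := Module.finBasis K (LinearMap.ker L)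
  let b := Module.finBasis K C'
  let Φ : Matrix (Fin n) (Option (Fin q)) K := Matrix.of fun j o => o.elim (p j) fun a => (v a).1 j
  have hli : LinearIndependent K (fun o : Option (Fin q) => o.elim p fun a => (v a).1) := by
    have h1 : LinearIndependent K (fun a => (v a).1) :=
      v.linearIndependent.map' (LinearMap.ker L).subtype (Submodule.ker_subtype _)
    refine linearIndependent_option.mpr ⟨h1, ?_⟩
    intro hmem
    have : Submodule.span K (Set.range fun a => (v a).1) ≤ LinearMap.ker L :=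
      Submodule.span_le.mpr (by rintro _ ⟨a, rfl⟩; exact (v a).2)
    exact hp (this hmem)
  have hinj : LinearMap.ker Φ.mulVecLin = ⊥ := by
    rw [LinearMap.ker_eq_bot']
    intro z hz
    funext o
    refine Fintype.linearIndependent_iff.mp hli z ?_ o
    funext j
    have := congrFun hz j
    simp only [mulVecLin_apply, mulVec, dotProduct, Pi.zero_apply] at this
    simp only [Finset.sum_apply, Pi.smul_apply, smul_eq_mul, Pi.zero_apply]
    rw [← this]
    refine Finset.sum_congr rfl fun o _ => ?_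
    cases o <;> simp [Φ, mul_comm]
  obtain ⟨Ψl, hΨl⟩ := LinearMap.exists_leftInverse_of_injective _ hinj
  obtain ⟨s₀, hs₀⟩ := LinearMap.exists_rightInverse_of_surjective L.rangeRestrict
    (LinearMap.range_rangeRestrict L)
  let s : (Fin m → K) →ₗ[K] (Fin n → K) := s₀ ∘ₗ (LinearMap.range L).projectionOnto C' hC'
  let Ψ : Matrix (Option (Fin q)) (Fin n) K := LinearMap.toMatrix' Ψl
  let S₀ : Matrix (Fin n) (Fin m) K := LinearMap.toMatrix' s
  have hΨΦ : Ψ * Φ = 1 := by
    apply Matrix.toLin'.injective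
    rw [Matrix.toLin'_mul, Matrix.toLin'_one, Matrix.toLin'_toMatrix']
    exact hΨl
  let γ : (Fin m → K) →ₗ[K] (Fin c → K) :=
    b.equivFun.toLinearMap ∘ₗ C'.projectionOnto (LinearMap.range L) hC'.symm
  let ε : (Fin c → K) →ₗ[K] (Fin m → K) := C'.subtype ∘ₗ b.equivFun.symm.toLinearMap
  have hJΦ : ∀ a, J *ᵥ (fun j => Φ j (some a)) = 0 := fun a => (v a).2
  refine ⟨q, c, Φ, Ψ, S₀ - Φ * (Ψ * S₀), (Ψ * S₀) none, LinearMap.toMatrix' ε,
    LinearMap.toMatrix' γ, ?_, ?_, fun j => rfl, hJΦ, hΨΦ, ?_, ?_⟩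
  · have := L.finrank_range_add_finrank_ker
    rw [Module.finrank_fin_fun] at this
    exact this
  · have := Submodule.finrank_add_eq_of_isCompl hC'
    rw [Module.finrank_fin_fun] at this
    exact this
  · rw [Matrix.mul_sub, ← Matrix.mul_assoc, hΨΦ, Matrix.one_mul, sub_self]
  · have h1 : J * S₀ + LinearMap.toMatrix' ε * LinearMap.toMatrix' γ = 1 := by
      apply Matrix.toLin'.injective
      rw [map_add, Matrix.toLin'_mul, Matrix.toLin'_mul, Matrix.toLin'_one,
        Matrix.toLin'_toMatrix', Matrix.toLin'_toMatrix', Matrix.toLin'_toMatrix']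
      refine LinearMap.ext fun e => ?_
      have h2 : L (s e) = ((LinearMap.range L).projectionOnto C' hC' e : Fin m → K) := by
        have := LinearMap.congr_fun hs₀ ((LinearMap.range L).projectionOnto C' hC' e)
        exact congrArg Subtype.val this
      have h3 : ε (γ e) = (C'.projectionOnto (LinearMap.range L) hC'.symm e : Fin m → K) := by
        simp [ε, γ]
      change L (s e) + ε (γ e) = e
      rw [h2, h3]
      exact Submodule.projection_add_projection_eq_self hC' e
    have h4 : J * (Φ * (Ψ * S₀)) = vecMulVec (J *ᵥ p) ((Ψ * S₀) none) := by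
      rw [← Matrix.mul_assoc]
      ext i e
      rw [Matrix.mul_apply, Fintype.sum_option]
      have h5 : ∀ a, (J * Φ) i (some a) = 0 := fun a => congrFun (hJΦ a) i
      simp only [h5, zero_mul, Finset.sum_const_zero, add_zero, vecMulVec_apply]
      rfl
    rw [Matrix.mul_sub, h4, ← h1]
    abel

theorem aeval_mem_span_of_mem_pow {k K R σ τ : Type*} [CommRing k] [Field K] [CommRing R]
    [Algebra k K] [Algebra K R] [Algebra k R] [IsScalarTower k K R]
    (f : τ → MvPolynomial σ k) (d : ℕ) (hd : 2 ≤ d) (hf : ∀ i, (f i).IsHomogeneous d)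
    (x : σ → R) (ε : R) (c : τ → K) (hx : ∀ i, aeval x (f i) = c i • ε) (e : ℕ)
    (g : MvPolynomial σ k) (hg : g.IsHomogeneous (d * e + 1))
    (hmem : g ∈ (Ideal.span (Set.range f)) ^ e) :
    aeval x g ∈ Submodule.span K (Set.range fun j => ε ^ e * x j) := by
  let A : Subalgebra K (Polynomial R) :=
    { carrier := {G | G.coeff 0 ∈ Submodule.span K ({1} : Set R) ∧
        G.coeff 1 ∈ Submodule.span K (Set.range x)}
      mul_mem' := by
        rintro G H ⟨hG0, hG1⟩ ⟨hH0, hH1⟩
        obtain ⟨a, ha⟩ := Submodule.mem_span_singleton.mp hG0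
        obtain ⟨b, hb⟩ := Submodule.mem_span_singleton.mp hH0
        refine ⟨?_, ?_⟩
        · rw [Polynomial.mul_coeff_zero, ← ha, ← hb]
          exact Submodule.mem_span_singleton.mpr ⟨a * b, by simp [smul_smul, mul_comm]⟩
        · rw [Polynomial.mul_coeff_one, ← ha, ← hb]
          simp only [smul_mul_assoc, one_mul, mul_smul_comm, mul_one]
          exact Submodule.add_mem _ (Submodule.smul_mem _ _ hH1) (Submodule.smul_mem _ _ hG1)
      add_mem' := by
        rintro G H ⟨hG0, hG1⟩ ⟨hH0, hH1⟩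
        refine ⟨?_, ?_⟩
        · rw [Polynomial.coeff_add]; exact Submodule.add_mem _ hG0 hH0
        · rw [Polynomial.coeff_add]; exact Submodule.add_mem _ hG1 hH1
      algebraMap_mem' := by
        intro a
        refine ⟨?_, ?_⟩
        · simp only [Polynomial.algebraMap_apply, Polynomial.coeff_C_zero]
          exact Submodule.mem_span_singleton.mpr ⟨a, by simp [Algebra.smul_def]⟩
        · simp [Polynomial.algebraMap_apply] }
  let ev : MvPolynomial σ k →ₐ[k] Polynomial R := aeval fun j => Polynomial.X * Polynomial.C (x j)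
  have hev : ∀ (g : MvPolynomial σ k) (t : ℕ), g.IsHomogeneous t →
      ev g = Polynomial.X ^ t * Polynomial.C (aeval x g) := by
    intro g t hg
    have h1 := aeval_mul_of_isHomogeneous hg (Polynomial.X : Polynomial R)
      (fun j => Polynomial.C (x j))
    have h2 := aeval_algebraMap_apply (Polynomial R) x g
    simp only [Polynomial.algebraMap_apply, Algebra.algebraMap_self, RingHom.id_apply] at h2
    rw [← h2]
    exact h1
  have hA : ∀ g, ev g ∈ A := by
    intro g
    induction g using MvPolynomial.induction_on with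
    | C a =>
      rw [aeval_C, IsScalarTower.algebraMap_apply k K (Polynomial R)]
      exact A.algebraMap_mem _
    | add p p' hp hp' => rw [map_add]; exact A.add_mem hp hp'
    | mul_X p s hp =>
      rw [map_mul]
      refine A.mul_mem hp ⟨?_, ?_⟩
      · simp [ev]
      · simp only [ev, aeval_X, Polynomial.coeff_X_mul, Polynomial.coeff_C_zero]
        exact Submodule.subset_span ⟨s, rfl⟩
  let ev' : MvPolynomial σ k →+* A := ev.toRingHom.codRestrict A.toSubring hA
  have ha : Polynomial.X ^ d * Polynomial.C ε ∈ A := by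
    refine ⟨?_, ?_⟩
    · rw [Polynomial.coeff_X_pow_mul']; simp [show ¬ d ≤ 0 by omega]
    · rw [Polynomial.coeff_X_pow_mul']; simp [show ¬ d ≤ 1 by omega]
  let a : A := ⟨_, ha⟩
  have hle : Ideal.map ev' (Ideal.span (Set.range f)) ≤ Ideal.span {a} := by
    rw [Ideal.map_span, Ideal.span_le]
    rintro _ ⟨_, ⟨i, rfl⟩, rfl⟩
    refine Ideal.mem_span_singleton'.mpr ⟨algebraMap K A (c i), Subtype.ext ?_⟩
    change algebraMap K (Polynomial R) (c i) * (Polynomial.X ^ d * Polynomial.C ε) = ev (f i)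
    rw [hev _ d (hf i), hx i, Algebra.smul_def, Polynomial.algebraMap_apply, map_mul]
    ring
  have h1 : ev' g ∈ Ideal.span {a ^ e} := by
    rw [← Ideal.span_singleton_pow]
    refine Ideal.pow_right_mono hle e ?_
    rw [← Ideal.map_pow]
    exact Ideal.mem_map_of_mem _ hmem
  obtain ⟨G, hG⟩ := Ideal.mem_span_singleton'.mp h1
  have h2 : (G : Polynomial R) * (Polynomial.X ^ d * Polynomial.C ε) ^ e = ev g :=
    congrArg Subtype.val hG
  rw [hev g _ hg] at h2
  have h3 := congrArg (fun H : Polynomial R => H.coeff (d * e + 1)) h2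
  have h4 : (G : Polynomial R) * (Polynomial.X ^ d * Polynomial.C ε) ^ e
      = Polynomial.X ^ (d * e) * (Polynomial.C (ε ^ e) * (G : Polynomial R)) := by
    rw [mul_pow, ← pow_mul, map_pow]; ring
  simp only [h4] at h3
  rw [add_comm (d * e) 1, Polynomial.coeff_X_pow_mul, Polynomial.coeff_C_mul,
    Polynomial.X_pow_mul, Polynomial.coeff_C_mul_X_pow, if_pos rfl] at h3
  rw [← h3]
  have h5 := Submodule.mem_map_of_mem (f := LinearMap.mulLeft K (ε ^ e)) G.2.2
  rw [Submodule.map_span, ← Set.range_comp] at h5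
  exact h5

theorem span_pow_le {k K R σ : Type*} [CommRing k] [Field K] [CommRing R]
    [Algebra K R] [Algebra k R] (x : σ → R) (t : ℕ) :
    (Submodule.span K (Set.range x)) ^ t ≤
      Submodule.span K {y | ∃ g : MvPolynomial σ k, g.IsHomogeneous t ∧ aeval x g = y} := by
  induction t with
  | zero =>
    rw [pow_zero, Submodule.one_le]
    exact Submodule.subset_span ⟨1, isHomogeneous_one _ _, map_one _⟩
  | succ t ih =>
    rw [pow_succ]
    refine (mul_le_mul_left ih _).trans ?_
    rw [Submodule.span_mul_span]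
    refine Submodule.span_mono ?_
    rintro _ ⟨_, ⟨g, hg, rfl⟩, _, ⟨j, rfl⟩, rfl⟩
    exact ⟨g * X j, hg.mul (isHomogeneous_X _ _), by simp⟩

end Pool.Agent.MP_c355a0_ag

end

-- part MP_c355a0_ag.Main
section

/-!
Dimension count and the main non-vanishing statement.
-/

set_option autoImplicit false

open MvPolynomial Matrix

namespace Pool.Agent.MP_c355a0_ag

/-- The elements `1, X_1, …, X_q`. -/
noncomputable def uhat (K : Type*) [Field K] (q : ℕ) : Option (Fin q) → MvPolynomial (Fin q) K :=
  fun o => o.elim 1 X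

theorem monomial_mem_pow {K : Type*} [Field K] {q : ℕ} (α : Fin q →₀ ℕ) (a : K) (t : ℕ)
    (h : α.degree ≤ t) :
    monomial α a ∈ (Submodule.span K (Set.range (uhat K q))) ^ t := by
  obtain ⟨s, rfl⟩ := Nat.exists_eq_add_of_le h
  have h1 : homogeneousSubmodule (Fin q) K 1 ≤ Submodule.span K (Set.range (uhat K q)) := by
    rw [homogeneousSubmodule_one_eq_span_X]
    refine Submodule.span_mono ?_
    rintro _ ⟨i, rfl⟩
    exact ⟨some i, rfl⟩
  have h2 : monomial α a ∈ (Submodule.span K (Set.range (uhat K q))) ^ α.degree :=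
    pow_le_pow_left' h1 _ (monomial_mem_homogeneousSubmodule_pow_degree a α)
  have h3 : (1 : MvPolynomial (Fin q) K) ∈ (Submodule.span K (Set.range (uhat K q))) ^ s := by
    have := Submodule.pow_mem_pow (Submodule.span K (Set.range (uhat K q)))
      (Submodule.subset_span ⟨none, rfl⟩) s
    simpa [uhat] using this
  rw [pow_add]
  simpa using Submodule.mul_mem_mul h2 h3

theorem card_exponents (q : ℕ) :
    ((Finset.range 4).biUnion fun t => (Finset.univ : Finset (Fin q)).finsuppAntidiag t).card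
      = (q + 1) ^ 2 + (q + 1).choose 3 := by
  rw [Finset.card_biUnion]
  · simp only [Finset.card_finsuppAntidiag_nat_eq_choose, Finset.card_univ, Fintype.card_fin,
      Finset.sum_range_succ, Finset.sum_range_zero]
    have h1 : (q + 3 - 1).choose 3 = (q + 1).choose 2 + (q + 1).choose 3 := by
      rw [show q + 3 - 1 = (q + 1) + 1 by omega, Nat.choose_succ_succ]
    have h2 : (q + 1).choose 2 * 2 = (q + 1) * q := by
      rw [Nat.choose_two_right]
      simp only [add_tsub_cancel_right]
      exact Nat.div_mul_cancel (by rw [mul_comm]; exact (Nat.even_mul_succ_self q).two_dvd)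
    rw [h1, show q + 2 - 1 = q + 1 by omega]
    simp only [Nat.choose_zero_right, add_tsub_cancel_right, Nat.choose_one_right]
    nlinarith
  · intro s _ t _ hst
    rw [Function.onFun, Finset.disjoint_left]
    intro α h1 h2
    rw [Finset.mem_finsuppAntidiag] at h1 h2
    exact hst (h1.1.symm.trans h2.1)

theorem count {K : Type*} [Field K] (q c n : ℕ) (h : Fin c → MvPolynomial (Fin q) K)
    (hh : ∀ b, h b ∈ idealOfVars (Fin q) K ^ 2) (z : Fin n → MvPolynomial (Fin q) K)
    (hspan : ∀ α : Fin q →₀ ℕ, α.degree ≤ 3 → ∃ m ∈ Submodule.span K (Set.range z),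
      monomial α 1 - m ∈ Ideal.span (Set.range h) ⊔ idealOfVars (Fin q) K ^ 4) :
    (q + 1) ^ 2 + (q + 1).choose 3 ≤ n + c * (q + 1) := by
  classical
  rw [← card_exponents]
  set D := (Finset.range 4).biUnion fun t => (Finset.univ : Finset (Fin q)).finsuppAntidiag t
    with hD
  have hdeg : ∀ α ∈ D, α.degree ≤ 3 := by
    intro α hα
    simp only [hD, Finset.mem_biUnion, Finset.mem_range, Finset.mem_finsuppAntidiag] at hα
    obtain ⟨t, ht, h1, -⟩ := hα
    rw [Finsupp.degree_eq_sum]
    have h2 : ∑ i, α i = t := h1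
    omega
  let Φ : MvPolynomial (Fin q) K →ₗ[K] (D → K) := LinearMap.pi fun α => lcoeff K α.1
  let gens : Fin n ⊕ (Fin c × Option (Fin q)) → (D → K) :=
    Sum.elim (fun j => Φ (z j)) fun bo => Φ (uhat K q bo.2 * h bo.1)
  let M : Submodule K (D → K) := Submodule.span K (Set.range gens)
  have h4 : ∀ g ∈ idealOfVars (Fin q) K ^ 4, Φ g = 0 := by
    intro g hg
    funext α
    exact (mem_pow_idealOfVars_iff' 4 g).mp hg α.1 (by have := hdeg α.1 α.2; omega)
  have hmul : ∀ (a : MvPolynomial (Fin q) K) (b : Fin c), Φ (a * h b) ∈ M := by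
    intro a b
    induction a using MvPolynomial.induction_on' with
    | add p p' hp hp' => rw [add_mul, map_add]; exact M.add_mem hp hp'
    | monomial α r =>
      by_cases hα : α.degree ≤ 1
      · have h1 := monomial_mem_pow α r 1 hα
        rw [pow_one] at h1
        have h2 := Submodule.mem_map_of_mem (f := Φ ∘ₗ LinearMap.mulRight K (h b)) h1
        rw [Submodule.map_span, ← Set.range_comp] at h2
        refine Submodule.span_mono ?_ h2
        rintro _ ⟨o, rfl⟩
        exact ⟨Sum.inr (b, o), rfl⟩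
      · rw [h4]
        · exact M.zero_mem
        · rw [show 4 = 2 + 2 by rfl, pow_add]
          refine Ideal.mul_mem_mul ?_ (hh b)
          rw [mem_pow_idealOfVars_iff']
          intro β hβ
          rw [coeff_monomial, if_neg]
          rintro rfl
          omega
  have hI : ∀ g ∈ Ideal.span (Set.range h) ⊔ idealOfVars (Fin q) K ^ 4, Φ g ∈ M := by
    intro g hg
    obtain ⟨g₁, hg₁, g₂, hg₂, rfl⟩ := Submodule.mem_sup.mp hg
    obtain ⟨a, rfl⟩ := Ideal.mem_span_range_iff_exists_fun.mp hg₁
    rw [map_add, h4 g₂ hg₂, add_zero, map_sum]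
    exact M.sum_mem fun b _ => hmul _ _
  have htop : ⊤ ≤ M := by
    rw [← (Pi.basisFun K D).span_eq, Submodule.span_le]
    rintro _ ⟨α, rfl⟩
    obtain ⟨m, hm, hm'⟩ := hspan α.1 (hdeg α.1 α.2)
    have h1 : Φ m ∈ M := by
      have h2 := Submodule.mem_map_of_mem (f := Φ) hm
      rw [Submodule.map_span, ← Set.range_comp] at h2
      refine Submodule.span_mono ?_ h2
      rintro _ ⟨j, rfl⟩
      exact ⟨Sum.inl j, rfl⟩
    have h2 := M.add_mem (hI _ hm') h1
    rw [← map_add, sub_add_cancel] at h2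
    have h3 : Φ (monomial α.1 1) = Pi.basisFun K D α := by
      funext β
      by_cases hβ : α = β
      · subst hβ
        simp [Φ]
      · have : α.1 ≠ β.1 := fun h => hβ (Subtype.ext h)
        simp [Φ, coeff_monomial, this, Pi.single_eq_of_ne (Ne.symm hβ)]
    rw [← h3]
    exact h2
  have h5 := finrank_le_of_span_eq_top (R := K) (v := gens) (top_le_iff.mp htop)
  simpa using h5

theorem exists_not_mem (n d e q : ℕ) (hq : q * (q + 1) < n) (hq' : n < (q + 1).choose 3)
    (hd : 2 ≤ d) (he : 1 ≤ e) (f : Fin (n + 1) → MvPolynomial (Fin n) ℂ)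
    (hf : ∀ i, (f i).IsHomogeneous d) :
    ∃ g : MvPolynomial (Fin n) ℂ, g.IsHomogeneous (d * e + 1) ∧
      g ∉ (Ideal.span (Set.range f)) ^ e := by
  classical
  by_contra hcon
  push Not at hcon
  obtain ⟨K, _, _, p, hp, hrank⟩ := exists_corank n q (d - 1) hq (by omega)
    (fun i j => pderiv j (f i)) (fun i j => (hf i).pderiv)
  set J : Matrix (Fin (n + 1)) (Fin n) K := Matrix.of fun i j => aeval p (pderiv j (f i)) with hJ
  have hchar : CharZero K := charZero_of_injective_algebraMap (algebraMap ℂ K).injective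
  have heuler : ∀ i, (J *ᵥ p) i = (d : K) * aeval p (f i) := by
    intro i
    have := congrArg (aeval p) (hf i).sum_X_mul_pderiv
    simp only [map_sum, map_mul, aeval_X, nsmul_eq_mul, map_natCast] at this
    rw [← this]
    simp [hJ, mulVec, dotProduct, mul_comm]
  by_cases hJp : J *ᵥ p = 0
  · obtain ⟨j, hj⟩ := Function.ne_iff.mp hp
    have h0 : ∀ i, aeval p (f i) = (0 : K) • (0 : K) := by
      intro i
      have := heuler i
      rw [hJp] at this
      have hd0 : (d : K) ≠ 0 := Nat.cast_ne_zero.mpr (by omega)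
      simpa [hd0] using this.symm
    have h1 := aeval_mem_span_of_mem_pow f d hd hf p (0 : K) (fun _ => (0 : K)) h0 e
      (X j ^ (d * e + 1)) (isHomogeneous_X_pow j _) (hcon _ (isHomogeneous_X_pow j _))
    have h2 : Submodule.span K (Set.range fun j => (0 : K) ^ e * p j) ≤ ⊥ := by
      rw [Submodule.span_le]
      rintro _ ⟨j, rfl⟩
      have h4 : (0 : K) ^ e * p j = 0 := by rw [zero_pow (by omega : e ≠ 0), zero_mul]
      exact (Submodule.mem_bot K).mpr h4
    have h3 := h2 h1
    rw [Submodule.mem_bot, map_pow, aeval_X] at h3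
    exact hj (pow_eq_zero_iff (Nat.succ_ne_zero _) |>.mp h3)
  obtain ⟨q', c, Φ, Ψ, S, η, E, Γ, hq1, hc1, hΦp, hJΦ, hΨΦ, hΨS, hdec⟩ := linear_data J p hJp
  let ι : K →+* (MvPolynomial (Fin q') K) := C
  let I : Ideal (MvPolynomial (Fin q') K) := idealOfVars (Fin q') K
  let pP : Fin n → (MvPolynomial (Fin q') K) := fun j => ι (p j)
  let w : Fin n → (MvPolynomial (Fin q') K) := fun j => ∑ a, ι (Φ j (some a)) * X a
  have hw : ∀ j, w j ∈ I := fun j =>
    I.sum_mem fun a _ => I.mul_mem_left _ (Ideal.subset_span ⟨a, rfl⟩)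
  have haev : ∀ g : MvPolynomial (Fin n) ℂ, aeval pP g = ι (aeval p g) := fun g =>
    aeval_algebraMap_apply (MvPolynomial (Fin q') K) p g
  have hJw : (J.map ι) *ᵥ w = 0 := by
    funext i
    have h1 : ∀ a, ∑ j, J i j * Φ j (some a) = 0 := fun a => congrFun (hJΦ a) i
    simp only [mulVec, dotProduct, w, Matrix.map_apply, Finset.mul_sum, Pi.zero_apply]
    rw [Finset.sum_comm]
    refine Finset.sum_eq_zero fun a _ => ?_
    simp only [← mul_assoc, ← map_mul, ← Finset.sum_mul, ← map_sum, h1, map_zero, zero_mul]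
  obtain ⟨y, hy, hres⟩ := newton I f pP w hw (J.map ι)
    (fun i j => by rw [haev]; rfl) hJw (S.map ι) 2
  set x := pP + w - (S.map ι) *ᵥ y with hx
  let hb : Fin c → (MvPolynomial (Fin q') K) := (Γ.map ι) *ᵥ y
  let ε : (MvPolynomial (Fin q') K) := 1 + (d : (MvPolynomial (Fin q') K)) * ((fun i => ι (η i)) ⬝ᵥ y)
  let I' : Ideal (MvPolynomial (Fin q') K) := Ideal.span (Set.range hb) ⊔ I ^ 4
  let π : (MvPolynomial (Fin q') K) →ₐ[K] (MvPolynomial (Fin q') K) ⧸ I' := Ideal.Quotient.mkₐ K I'
  have hx1 : pP + w = (Φ.map ι) *ᵥ uhat K q' := by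
    funext j
    simp [mulVec, dotProduct, Fintype.sum_option, uhat, pP, w, hΦp]
  have hΨx : (Ψ.map ι) *ᵥ x = uhat K q' := by
    rw [hx, hx1, mulVec_sub, mulVec_mulVec, mulVec_mulVec, ← Matrix.map_mul, ← Matrix.map_mul,
      hΨΦ, hΨS]
    simp
  have hfx : ∀ i, aeval (fun j => π (x j)) (f i) = aeval p (f i) • π ε := by
    intro i
    have h1 : aeval (fun j => π (x j)) (f i) = π (aeval x (f i)) :=
      (comp_aeval_apply (f := x) (π.restrictScalars ℂ) (f i)).symm
    rw [h1, ← map_smul]
    refine Ideal.Quotient.eq.mpr ?_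
    have h2 : y i - ((J.map ι) *ᵥ ((S.map ι) *ᵥ y)) i
        = ι ((J *ᵥ p) i) * ((fun i => ι (η i)) ⬝ᵥ y) + ((E.map ι) *ᵥ hb) i := by
      have h3 := congrArg (fun M : Matrix (Fin (n + 1)) (Fin (n + 1)) K => ((M.map ι) *ᵥ y) i) hdec
      simp only [Matrix.map_sub _ (map_sub ι), Matrix.map_add _ (map_add ι), Matrix.map_mul,
        Matrix.map_one _ (map_zero ι) (map_one ι), sub_mulVec, add_mulVec, one_mulVec,
        ← mulVec_mulVec, Pi.sub_apply, Pi.add_apply] at h3
      rw [h3]
      congr 1
      simp [mulVec, dotProduct, vecMulVec_apply, Finset.mul_sum, mul_assoc]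
    have h4 := hres i
    rw [h2, haev, heuler] at h4
    have h5 : ((E.map ι) *ᵥ hb) i ∈ I' :=
      Ideal.mem_sup_left (mulVec_mem _ _ _ (fun b => Ideal.subset_span (Set.mem_range_self b)) i)
    have h6 := I'.add_mem (Ideal.mem_sup_right h4) h5
    convert h6 using 1
    simp only [ε, map_mul, map_natCast, smul_eq_C_mul, ι]
    ring
  have hcount := count q' c n hb (fun b => mulVec_mem _ _ _ hy b) (fun j => ε ^ e * x j) (by
    intro α hα
    have h1 := monomial_mem_pow α (1 : K) (d * e + 1) (by nlinarith)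
    have h2 := Submodule.mem_map_of_mem (f := π.toLinearMap) h1
    rw [Submodule.map_pow] at h2
    have h3 : Submodule.map π.toLinearMap (Submodule.span K (Set.range (uhat K q')))
        ≤ Submodule.span K (Set.range fun j => π (x j)) := by
      rw [Submodule.map_span, Submodule.span_le]
      rintro _ ⟨_, ⟨o, rfl⟩, rfl⟩
      rw [← hΨx]
      simp only [mulVec, dotProduct, Matrix.map_apply, AlgHom.toLinearMap_apply, map_sum, ι,
        ← smul_eq_C_mul, map_smul]
      exact Submodule.sum_mem _ fun j _ => Submodule.smul_mem _ _ (Submodule.subset_span ⟨j, rfl⟩)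
    have h4 := span_pow_le (k := ℂ) _ _ (pow_le_pow_left' h3 _ h2)
    have h5 : Submodule.span K {y | ∃ g : MvPolynomial (Fin n) ℂ, g.IsHomogeneous (d * e + 1) ∧
        aeval (fun j => π (x j)) g = y} ≤
        Submodule.map π.toLinearMap (Submodule.span K (Set.range fun j => ε ^ e * x j)) := by
      rw [Submodule.span_le]
      rintro _ ⟨g, hg, rfl⟩
      have h6 := aeval_mem_span_of_mem_pow f d hd hf (fun j => π (x j)) (π ε)
        (fun i => aeval p (f i)) hfx e g hg (hcon g hg)
      rw [Submodule.map_span, ← Set.range_comp]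
      have h7 : (π.toLinearMap ∘ fun j => ε ^ e * x j) = fun j => π ε ^ e * π (x j) := by
        funext j; simp
      rw [h7]
      exact h6
    obtain ⟨m, hm, hm'⟩ := h5 h4
    exact ⟨m, hm, Ideal.Quotient.eq.mp hm'.symm⟩)
  have hqq : q ≤ q' := by omega
  have hmono := Nat.choose_le_choose 3 (show q + 1 ≤ q' + 1 by omega)
  have hc : c = q' + 1 := by omega
  rw [hc] at hcount
  nlinarith

end Pool.Agent.MP_c355a0_ag

end
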